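import Pool.Agent.E8helper75.F3.Stm

/-!
THR: the two characters at two.
-/

set_option autoImplicit false
set_option linter.unusedSectionVars false

namespace Pool.Agent.E8helper82.F3

open Pool.Agent.E8helper75.F3 (rh th0 th1 wr TR S_THR)
open Pool.Agent.E8helper21.Q2 (x2 x2_norm x2_per x2_mul sz)
open H385 (ZI im1)
open Pool.Agent.W164.RC (two2)
open Pool.Agent.H304R2.EC.A1 (prim)

lemma pw_add (e f : ℤ) :
    im1 ^ ((e + f) % 4).toNat = im1 ^ (e % 4).toNat * im1 ^ (f % 4).toNat := by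
  have he : e % 4 = 0 ∨ e % 4 = 1 ∨ e % 4 = 2 ∨ e % 4 = 3 := by omega
  have hf : f % 4 = 0 ∨ f % 4 = 1 ∨ f % 4 = 2 ∨ f % 4 = 3 := by omega
  rw [Int.add_emod]
  rcases he with he | he | he | he <;> rcases hf with hf | hf | hf | hf <;> rw [he, hf] <;> decide

lemma rh_eq {a : ZI} {e : ℤ} (h : (a.re - a.im - a.im ^ 2 - 1) % 16 = (4 * e) % 16) :
    rh a = im1 ^ (e % 4).toNat := by
  unfold rh
  have : (a.re - a.im - a.im ^ 2 - 1) / 4 % 4 = e % 4 := by omega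
  rw [this]

lemma rh_norm (a : ZI) : (rh a).norm = 1 := by
  unfold rh
  have h1 : ((a.re - a.im - a.im ^ 2 - 1) / 4) % 4 = 0 ∨ ((a.re - a.im - a.im ^ 2 - 1) / 4) % 4 = 1 ∨
      ((a.re - a.im - a.im ^ 2 - 1) / 4) % 4 = 2 ∨ ((a.re - a.im - a.im ^ 2 - 1) / 4) % 4 = 3 := by
    omega
  rcases h1 with h | h | h | h <;> rw [h] <;> decide

lemma rh_mul {a b : ZI} (ha : prim a) (hb : prim b) : rh (a * b) = rh a * rh b := by
  obtain ⟨a1, a2⟩ := ha
  obtain ⟨b1, b2⟩ := hb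
  obtain ⟨s, hs⟩ : ∃ s, a.im = 2 * s := ⟨a.im / 2, by omega⟩
  obtain ⟨u, hu⟩ : ∃ u, b.im = 2 * u := ⟨b.im / 2, by omega⟩
  obtain ⟨k, hk⟩ : ∃ k, a.re = 1 - 2 * s + 4 * k := ⟨(a.re - 1 + 2 * s) / 4, by omega⟩
  obtain ⟨l, hl⟩ : ∃ l, b.re = 1 - 2 * u + 4 * l := ⟨(b.re - 1 + 2 * u) / 4, by omega⟩
  have e1 : rh a = im1 ^ ((k - s - s ^ 2) % 4).toNat := by
    refine rh_eq ?_
    rw [hs, hk]
    congr 1
    ring
  have e2 : rh b = im1 ^ ((l - u - u ^ 2) % 4).toNat := by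
    refine rh_eq ?_
    rw [hu, hl]
    congr 1
    ring
  rw [e1, e2, ← pw_add]
  refine rh_eq ?_
  have h3 : (a * b).re = a.re * b.re - a.im * b.im := by rw [Zsqrtd.re_mul]; ring
  have h4 : (a * b).im = a.re * b.im + a.im * b.re := by rw [Zsqrtd.im_mul]
  rw [h3, h4, hs, hu, hk, hl]
  have h5 : (1 - 2 * s + 4 * k) * (1 - 2 * u + 4 * l) - 2 * s * (2 * u) -
      ((1 - 2 * s + 4 * k) * (2 * u) + 2 * s * (1 - 2 * u + 4 * l)) -
      ((1 - 2 * s + 4 * k) * (2 * u) + 2 * s * (1 - 2 * u + 4 * l)) ^ 2 - 1 =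
      4 * (k - s - s ^ 2 + (l - u - u ^ 2)) + 16 * ((k * l - k * u - s * l) +
        (s * u - s * u) - 2 * (s + u) * (-(s * u) + k * u + s * l) -
        4 * (-(s * u) + k * u + s * l) ^ 2 - s * u + s * u) := by
    ring
  rw [h5]
  omega

lemma th_per (a q : ZI) : rh (a + two2 * (4 * q)) = rh a ∧ x2 (a + two2 * (4 * q)) = x2 a := by
  have h4 : (4 : ZI) = ⟨4, 0⟩ := by decide
  have er : (two2 * (4 * q)).re = 8 * (q.re - q.im) := by
    rw [h4]
    simp only [two2, Zsqrtd.re_mul, Zsqrtd.im_mul]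
    ring
  have ei : (two2 * (4 * q)).im = 8 * (q.re + q.im) := by
    rw [h4]
    simp only [two2, Zsqrtd.re_mul, Zsqrtd.im_mul]
    ring
  constructor
  · unfold rh
    rw [Zsqrtd.re_add, Zsqrtd.im_add, er, ei]
    have : a.re + 8 * (q.re - q.im) - (a.im + 8 * (q.re + q.im)) -
        (a.im + 8 * (q.re + q.im)) ^ 2 - 1 = (a.re - a.im - a.im ^ 2 - 1) +
        16 * (-q.im - a.im * (q.re + q.im) - 4 * (q.re + q.im) ^ 2) := by ring
    rw [this]
    have h2 : (a.re - a.im - a.im ^ 2 - 1 +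
        16 * (-q.im - a.im * (q.re + q.im) - 4 * (q.re + q.im) ^ 2)) / 4 % 4 =
        (a.re - a.im - a.im ^ 2 - 1) / 4 % 4 := by omega
    rw [h2]
  · apply x2_per
    rw [Zsqrtd.im_add, ei]
    omega

lemma rh_sq {a : ZI} (ha : prim a) : star (rh a) ^ 2 = sz (wr a) := by
  obtain ⟨a1, a2⟩ := ha
  obtain ⟨s, hs⟩ : ∃ s, a.im = 2 * s := ⟨a.im / 2, by omega⟩
  obtain ⟨k, hk⟩ : ∃ k, a.re = 1 - 2 * s + 4 * k := ⟨(a.re - 1 + 2 * s) / 4, by omega⟩
  have e0 : a.re - a.im - a.im ^ 2 - 1 = 4 * (k - s - s ^ 2) := by rw [hs, hk]; ring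
  have e1 : rh a = im1 ^ ((k - s - s ^ 2) % 4).toNat := rh_eq (by rw [e0])
  unfold wr
  rw [e1, e0]
  generalize k - s - s ^ 2 = e
  have he : e % 4 = 0 ∨ e % 4 = 1 ∨ e % 4 = 2 ∨ e % 4 = 3 := by omega
  rcases he with he | he | he | he
  · rw [if_neg (by omega), he]; decide
  · rw [if_pos (by omega), he]; decide
  · rw [if_neg (by omega), he]; decide
  · rw [if_pos (by omega), he]; decide

lemma x2_four (a : ZI) : (x2 a ^ 2) ^ 2 = 1 := by
  unfold x2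
  have h1 : (a.im / 2) % 4 = 0 ∨ (a.im / 2) % 4 = 1 ∨ (a.im / 2) % 4 = 2 ∨
      (a.im / 2) % 4 = 3 := by
    omega
  rcases h1 with h | h | h | h <;> rw [h] <;> decide

lemma thr0 : TR th0 where
  nm a := by unfold th0; rw [Zsqrtd.norm_conj, rh_norm]
  one := by decide
  mul a b ha hb := by unfold th0; rw [rh_mul ha hb, star_mul, mul_comm]
  per a q := by unfold th0; rw [(th_per a q).1]
  sqr a h := by unfold th0; exact rh_sq h

lemma thr1 : TR th1 where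
  nm a := by
    unfold th1
    rw [Zsqrtd.norm_mul, Zsqrtd.norm_conj, rh_norm, sq, Zsqrtd.norm_mul, x2_norm, one_mul, one_mul]
  one := by decide
  mul a b ha hb := by
    unfold th1
    rw [rh_mul ha hb, x2_mul ha hb, star_mul]
    ring
  per a q := by unfold th1; rw [(th_per a q).1, (th_per a q).2]
  sqr a h := by
    unfold th1
    rw [mul_pow, rh_sq h, x2_four, mul_one]

theorem t_THR : S_THR := ⟨thr0, thr1⟩

end Pool.Agent.E8helper82.F3
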